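import Pool.Agent.V7H31.Ord.Defect

/-!
# The exact law of the quadratic defect: ordinary primes of tensor constructions

A system `X` over a number field `K` (`Sys`) consists of a multiset `X.R v` of algebraic numbers for every
place `v`, the eigenvalues of the geometric Frobenius element, and of the multiset `X.H` of the Hodge-Tate
weights; for example `X = IH ^ n (Y)` for a projective variety `Y`, or its `σ`-part for an embedding `σ` of
a field of multiplications. The quadratic defect of `X` at `v` is the sum of the squares of the Hodge-Tate
weights minus the sum of the squares of the slopes of the Newton polygon at `v` (normalised by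
`v (N v) = 1`); `NewtonAboveHodge X v` is Mazur's inequality (the Newton polygon lies above the Hodge polygon
and has the same end point), `OrdAt X v`: the polygons coincide.

A tensor construction (`IsTensor`) is given by a finite multiset `M` of weights of
`GL (r 0) × … × GL (r (m - 1))` which is symmetric in each of the `m` blocks, for example by the weights of an
arbitrary algebraic representation: sums, tensor products, duals, Schur functors in several variables.
`index M i` is half of the sum of the `(μ i k - μ i l) ^ 2`, `μ` in `M`, for `k ≠ l` (it does not depend on `k`
and `l`): the Dynkin index of the representation in the `i`-th factor, up to normalisation.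

**Theorem.** Let `X = M (V 0, …, V (m - 1))`, and let `v` be a place, of arbitrary degree, where the `V i`
satisfy Mazur's inequality.

1. `defect X = ∑ index M i * defect (V i)` at `v` (for every embedding `τ` inducing `v`).
2. The defects of the `V i` are nonnegative, and zero if and only if the two polygons coincide.
3. The index of `M` in the block `i` is positive if `M` is not scalar in this block.
4. If `M` is not scalar in every block of rank at least two, then `v` is ordinary for `X` if and only if it
   is ordinary for ALL `V i`.

So for projective varieties `Y i` and tensor constructions as in 4 (for example `V ⊗ V^∨`, `Sym² V`,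
`Λ² V` for one variable of rank at least three, sums and products for several variables) the places
at which `X = M (IH ^ (n 0) (Y 0), …)` is ordinary are, up to finitely many, exactly those at which all
`IH ^ (n i) (Y i)` are ordinary; Q1 for the `IH ^ (n i) (Y i)` with infinitely many COMMON places is
equivalent to Q1 for the single system `X`. For instance the multiset of the differences of the slopes
(the Newton polygon of `V ⊗ V^∨`) decides whether `V` is ordinary, though it does not determine the
Newton polygon of `V` in general.

Proof: the sum of the squares of the slopes of `X` is a quadratic form in the slopes of the `V i` which is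
invariant under the permutations in each block; so it is a combination of the sums of the squares and of
products of the sums in the blocks, and the latter are determined by the end points.
-/

set_option autoImplicit false

namespace Pool.Agent.Results.MP_db07cb_ag.DefectLawH31

open NumberField IsDedekindDomain
open Pool.Agent.V7H31.Ord

/-- **The exact law of the quadratic defect.** -/
theorem result (K : Type) [Field K] [NumberField K] (Pl : Set (HeightOneSpectrum (𝓞 K))) (m : ℕ)
    (r : Fin m → ℕ) (M : Multiset (Wt r)) (V : Fin m → Sys K) (X : Sys K) (hT : IsTensor Pl r M V X)
    (v : HeightOneSpectrum (𝓞 K)) (hv : v ∈ Pl) (hV : ∀ i, NewtonAboveHodge (V i) v) :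
    (∀ (p : ℕ) [Fact p.Prime] (τ : AlgebraicClosure K →+* PadicAlgCl p), Induces τ v →
      defect (Ideal.absNorm v.asIdeal : ℝ) ((X.R v).map fun y => ‖τ y‖) X.H =
        ∑ i, index M i * defect (Ideal.absNorm v.asIdeal : ℝ) (((V i).R v).map fun y => ‖τ y‖) (V i).H ∧
      ∀ i, 0 ≤ defect (Ideal.absNorm v.asIdeal : ℝ) (((V i).R v).map fun y => ‖τ y‖) (V i).H ∧
        (defect (Ideal.absNorm v.asIdeal : ℝ) (((V i).R v).map fun y => ‖τ y‖) (V i).H = 0 ↔
          HasSlopes (Ideal.absNorm v.asIdeal : ℝ) (((V i).R v).map fun y => ‖τ y‖) (V i).H)) ∧
    (∀ i, NonScal M i → 0 < index M i) ∧
    ((∀ i, NonScal M i ∨ r i ≤ 1) → (OrdAt X v ↔ ∀ i, OrdAt (V i) v)) := by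
  have hq1 := one_lt_norm v
  refine ⟨fun p _ τ hτ => ⟨defect_law hT hv τ fun i => hV i p τ hτ,
    fun i => defect_nonneg hq1 _ _ (hV i p τ hτ)⟩, fun i hi => index_pos hT.symm i hi, fun hM => ?_⟩
  constructor
  · intro hX i p _ τ hτ
    exact ord_root hT hv τ (fun j => hV j p τ hτ) (hX p τ hτ) i (hM i)
  · intro h p _ τ hτ
    exact ord_tensor hT hv τ fun i => h i p τ hτ

end Pool.Agent.Results.MP_db07cb_ag.DefectLawH31
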