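import Pool.Agent.V7H61.LieOrd.Univ

/-!
# Ordinary primes for intersection cohomology groups with an action of a semisimple Lie algebra

## Statement

`K` is a number field and `A a`, for `a` in a countable index set `ι`, are intersection cohomology
groups over `K` (for any projective varieties) which are small (`Small`): of K3 type, of elliptic
curve type or of abelian surface type, up to a Tate twist. The class `Closure A` contains the `A a`
and everything obtained from them by the following steps:

* (`link`, `simple`) `L` is a semisimple Lie algebra over `ℚ̄_ℓ` which acts on groups `M i` and `B c`;
  the Galois group normalises the action, and one element of `L` acts on all these groups as the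
  Hodge-Tate operator (weights as eigenvalues), up to scalars; the `B c` are rigid (`Rigid`): the
  endomorphisms commuting with `L` are scalars, or they are selfadjoint for an invariant form. If the
  `B c` are in the class, then the `M i` are in the class. Here `L` is simple and there is one `B` and
  one `M`, or in the semisimple case the sum of the trace forms of the `M i` is a rational linear
  combination of the trace forms of the `B c` (Dynkin index). No tensor construction relating `M` and
  `B` is assumed, `M` need not be semisimple, and the Galois group need not act through the group
  of `L`: it acts on `L` by automorphisms (inner or outer), and the actions on the `M i` and the `B c`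
  only induce the same automorphisms of `L`.
* (`colink`) the converse, for rigid `M i` and positive coefficients;
* direct sums and summands, tensor products and their nonzero factors, duals;
* groups with one Hodge-Tate weight and groups which are ordinary at almost all places of degree one
  (complex multiplication by a field contained in `K`).

The theorem: there is ONE infinite set `P` of places of degree one of `K` such that for every subfield
`K₀` of `K` and every intersection cohomology group `M₀` over `K₀` which belongs to the class after
base change to `K`, the place of `K₀` below `v` is ordinary for `M₀` for almost all `v` in `P`.

If every finite subfamily of the `A a` has connected monodromy over an extension of degree at most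
`m` of `K` then `P` has lower density at least `1 / m`; in particular density one if the monodromy
groups are connected. Moreover every such `M₀` is ordinary at a set of places of `K₀` of
positive lower density. So Q1 is true for these groups, simultaneously.

## Examples

* Let `X` be a projective primitive symplectic variety with isolated singularities, or smooth (a
  hyperkaehler variety). The semisimple part `L = so(IH²)` of the degree zero part of the
  Looijenga-Lunts-Verbitsky algebra of `IH^*(X)` (Verbitsky, Looijenga-Lunts; Tighe in the singular
  case) acts on all `IH^k(X)`, is normalised by the Galois group, and contains the Hodge operator
  up to scalars; `IH²(X)` is of K3 type and irreducible for `L`. So all `IH^k(X)` are in the class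
  (`simple`), and there are simultaneous ordinary places for countably many such `X`.
* Let `T` be an intersection cohomology group of K3 type with real multiplication by a totally real
  field `E`, and `L` the Lie algebra of its monodromy group, the special orthogonal group of a
  quadratic form over `E`. Then `T` is rigid, since real multiplications are selfadjoint,
  and all groups on which `L` acts in such a way that the trace forms are related (for example spin
  representations, as in the construction of Kuga and Satake and its corestrictions) are in the
  class.
* Let the adjoint representation of `L` be of K3 type, that is, the Hodge-Tate operator lies in one
  factor `sl(2)` of `L`. Then groups with such a monodromy Lie algebra are in the class, for example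
  `H¹` of the abelian fourfolds of Mumford, where `L` is a form of `sl(2)^3`, and its analogues.

For smooth hyperkaehler varieties this is contained in the starting results
`MP_17d720_ag.HyperkaehlerVarieties` (the case of `so(H²)`, from which the idea of the slope operator
is taken), `MP_adc574_ag.HyperkaehlerVarieties` and `MP_0dad22_ag.BuiltFromHyperkaehler`. New are the
general semisimple Lie algebras and rigid groups, the singular varieties, the closure under all
these operations in any order, and the universal set `P` with its density, for infinite families. The
hand-in `SaturatedClosureH31` of this problem uses tensor constructions, but no Lie algebras.

## Idea of the proof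

Let `N` be the slope operator of the geometric Frobenius element `φ` at `v` on one of the groups: it
commutes with everything that commutes with `φ`, and its eigenvalues are the slopes. Since `φ`
normalises the action of `L`, the commutator with `N` is a derivation of `L`, which is given by an
element `ν` of `L`, since the Killing form is nondegenerate. So `N - ν` commutes with `L` on each of
the groups. On a rigid group `B` this implies that `N - ν` is a scalar, given by the end point of the
Newton polygon. On the groups `M i` it is some operator with rational eigenvalues which is
orthogonal to `ν` for the trace form, so that the sum of the squares of the slopes is at least
`tr ν ^ 2` plus the contribution of the end point. The Hodge-Tate operator `μ` gives the same formulas,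
with equality. If the `B c` are ordinary then `tr ν ^ 2 = tr μ ^ 2` on the `B c`, hence the sum over the
`M i` of these traces agree, by the relation between the trace forms, and the sum of the squares of
all slopes of the `M i` is at least that of the Hodge-Tate weights. But the Newton polygons lie above
the Hodge polygons, so that this sum is at most that of the Hodge-Tate weights, with equality only if
the polygons agree. If `L` is simple then its invariant bilinear forms are proportional, and the
constant is rational since `μ` has rational eigenvalues.

For the small groups: if `v` of degree one is not ordinary then the coefficient of degree `n - h` of
the characteristic polynomial of Frobenius is divisible by `N(v) ^ (t h + 1)`, and the Weil bounds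
show that the quotient is one of finitely many integers. So `v` satisfies one of finitely many
equations in the Zariski closure of the image of Galois; by `nonconst` none of them holds on the
connected component, and the Haar measure and the Chebotarev density theorem (starting library) show
that the exceptional set has density zero among the places with Frobenius in `U`. The set `P`
is obtained by a diagonal argument (starting library).
-/

set_option autoImplicit false

namespace Pool.Agent.Results.MP_db07cb_ag.LieDensityH61

open NumberField IsDedekindDomain Pool.Agent.W401.Cheb Pool.Agent.V7H61.LieOrd
open Pool.Agent.W528.Ord (lowerDensity)

/-- A universal set of ordinary places for all intersection cohomology groups in the closure of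
countably many small groups under links by semisimple Lie algebras and tensor operations. -/
theorem result {K : Type} [Field K] [NumberField K] {ℓ : ℕ} [Fact ℓ.Prime] {ι : Type} [Countable ι]
    (χ : GK K →* PadicAlgCl ℓ) (hχ : Continuous χ) (A : ι → IHGroup K ℓ)
    (s : ∀ a, Small χ (A a)) :
    (∃ P : Set (HeightOneSpectrum (𝓞 K)), P.Infinite ∧ (∀ v ∈ P, DegreeOne v) ∧
      (∀ m : ℕ, ConnectedDegree χ A m → 1 / (m : ℝ) ≤ lowerDensity fun v => v ∈ P) ∧
      (Finite ι → 0 < lowerDensity fun v => v ∈ P) ∧
      ∀ (K₀ : Type) [Field K₀] [NumberField K₀] [Algebra K₀ K] (M₀ : IHGroup K₀ ℓ)
        (M : IHGroup K ℓ), IsBaseChange M₀ M → Closure A M →
          {v | v ∈ P ∧ ¬ ∀ v₀ : HeightOneSpectrum (𝓞 K₀), Over v v₀ → M₀.Ordinary v₀}.Finite) ∧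
    ∀ (K₀ : Type) [Field K₀] [NumberField K₀] [Algebra K₀ K] (M₀ : IHGroup K₀ ℓ)
      (M : IHGroup K ℓ), IsBaseChange M₀ M → Closure A M →
        0 < lowerDensity fun v₀ => M₀.Ordinary v₀ := by
  constructor
  · obtain ⟨P, h1, h2, h3, h4, h5⟩ := universal hχ s
    exact ⟨P, h1, h2, h3, h4, fun K₀ _ _ _ M₀ M hb hM => finite_desc hb h2 (h5 M hM)⟩
  · intro K₀ _ _ _ M₀ M hb hM
    obtain ⟨e, he⟩ := exists_injective_nat ι
    obtain ⟨n, hn⟩ := closure_fin e hM
    have hf : Finite {a // e a < n} :=
      Finite.of_injective (β := Fin n) (fun a => ⟨e a.1, a.2⟩) (by
        rintro ⟨a, ha⟩ ⟨b, hb⟩ hab
        simp only [Fin.mk.injEq] at hab
        exact Subtype.ext (he hab))
    exact density_desc (A := fun a : {a // e a < n} => A a) hχ (fun a => s a) hb hn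

end Pool.Agent.Results.MP_db07cb_ag.LieDensityH61
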