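import Pool.Agent.V7H31.Ord.Closure

/-!
# Common ordinary primes for all intersection cohomology groups in a saturated tensor closure

A system `X` over a number field `K` (`Sys`) consists of a multiset `X.R v` of algebraic numbers for every
place `v`, the eigenvalues of the geometric Frobenius element, and of the multiset `X.H` of the Hodge-Tate
weights; for example `X = IH ^ n (Y)` for a projective variety `Y`, or its `σ`-part for an embedding `σ` of
a field of multiplications. `NewtonAboveHodge X v` is Mazur's inequality: the Newton polygon at `v`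
(normalised by `v (N v) = 1`) lies above the Hodge polygon and has the same end point.

A tensor construction (`IsTensor`) is given by a finite multiset `M` of weights of
`GL (r 0) × … × GL (r (m - 1))` which is symmetric in each of the `m` blocks, for example by the weights of an
arbitrary algebraic representation: sums, tensor products, duals, Schur functors. The eigenvalues of
`X = M (V 0, …, V (m - 1))` are the products `∏ x i k ^ μ i k`, `μ` in `M`, of the eigenvalues `x i k` of the
`V i`. `M` is not scalar in the block `i` (`NonScal`) if `μ i k ≠ μ i l` for some `μ` in `M` and some `k`, `l`.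
For example `V ⊗ V^∨`, `Sym² V`, `Λ² V` (rank at least three) are not scalar in `V`, and `V ⊗ W`, `V ⊕ W`
are not scalar in both variables if the ranks are at least two.

## The theorem

`K₀` is a number field, and for every `n` the `A n i` are finitely many pure motives with multiplications by
totally real or CM fields over a finite extension `K n` of `K₀` (with connected `ℓ n`-adic monodromy groups
for one prime `ℓ n`) for which there is an admissible element `γ` of the Galois group of `K n` (the identity
will do if the Hodge defects are at most two: abelian surfaces, K3 surfaces, motives of K3 type with real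
multiplication, ...).

The SATURATED TENSOR CLOSURE (`Cl`) is the smallest class of systems which contains the pieces of the
`A n i` and the systems of rank one, and which is stable under tensor constructions AND under TENSOR ROOTS:
if one tensor construction of the systems `V 0, …, V (m - 1)` (satisfying Mazur's inequality) is in the
class, and is not scalar in the variable `V i`, then `V i` is in the class. (Direct summands are a special
case: `V` and `W` are tensor roots of `V ⊕ W`.)

There is one infinite set `P` of places of `K₀`, of lower density at least `c`, such that for all projective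
varieties (and finite families of them) the intersection cohomology groups `V i` of which are, over `K n`, in
the closure, for all large `n`, almost all places in `P` are ordinary for all `V i`. If the hypothesis holds
for one `n`, the places of `K₀` at which all `V i` are ordinary have lower density at least the
proportion of the admissible elements divided by `[K n : K₀]`, which is positive.

In the starting result on this question (MP_17d720_ag, CommonOrdinaryReduction) the `V i` are direct summands
of sums of tensor products of pieces. The closure is much larger: it contains all systems with a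
PROJECTIVE representation in the tensor category generated by the `A n i` (as `V ⊗ V^∨` is a tensor
construction which is not scalar in `V`), and so on inductively. Examples (by Deligne's theorem on absolute
Hodge cycles, not in Lean): the cohomology of Kuga-Satake varieties and of the abelian fourfolds of Mumford,
and the twists of all systems in the closure by characters.

Proof: `Pool/Agent/V7H31/Ord` (tensor roots: the sum of the squares of the slopes of `M (V)` is a quadratic
form in the slopes of the `V i` which is invariant under the permutations in each block, hence a combination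
of the sums of the squares and of products of the sums in the blocks; the latter are determined by the
end points, and by majorization each sum of squares is at most the one for the Hodge slopes, with
equality only if the polygons agree); the places where the pieces are ordinary, and the construction
of `P`, are due to the starting library (`W528`, `R915`, `W850`).
-/

set_option autoImplicit false

namespace Pool.Agent.Results.MP_db07cb_ag.SaturatedClosureH31

open NumberField IsDedekindDomain Polynomial Filter Topology
open Pool.Agent.W401.Cheb Pool.Agent.W528.Ord Pool.Agent.R915.Ord Pool.Agent.W850.Ord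
open Pool.Agent.V7H31.Ord

/-- The `V ℓ'` are strictly compatible: at the places of degree one outside `T` the characteristic
polynomial of the geometric Frobenius element (the inverse of `γ`) is `F v`. -/
def StrictlyCompatible {K₀ : Type} [Field K₀] [NumberField K₀] (T : Finset ℕ) {r : ℕ}
    (V : ∀ (ℓ' : ℕ) [Fact ℓ'.Prime], GK K₀ →* Matrix.GeneralLinearGroup (Fin r) ℚ_[ℓ'])
    (F : HeightOneSpectrum (𝓞 K₀) → Polynomial ℤ) : Prop :=
  ∀ (ℓ' : ℕ) [Fact ℓ'.Prime] (v₀ : HeightOneSpectrum (𝓞 K₀)), MultSystem.IsDeg1 T v₀ →
    Ideal.absNorm v₀.asIdeal ≠ ℓ' → ∀ γ : GK K₀, IsFrob v₀ γ →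
      (V ℓ' γ⁻¹ : Matrix (Fin r) (Fin r) ℚ_[ℓ']).charpoly = (F v₀).map (Int.castRingHom ℚ_[ℓ'])

/-- `v₀` has degree one, and for every prime `ℓ'` different from the residue characteristic `p = N v₀`
and every embedding `τ` of the field of algebraic numbers the Newton polygon of `V ℓ'` at `v₀` has the
slopes `H`. -/
def Ordinary {K₀ : Type} [Field K₀] [NumberField K₀] {r : ℕ}
    (V : ∀ (ℓ' : ℕ) [Fact ℓ'.Prime], GK K₀ →* Matrix.GeneralLinearGroup (Fin r) ℚ_[ℓ'])
    (H : Multiset ℕ) (v₀ : HeightOneSpectrum (𝓞 K₀)) : Prop :=
  ∃ (p : ℕ) (_ : Fact p.Prime), Ideal.absNorm v₀.asIdeal = p ∧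
    ∀ (ℓ' : ℕ) [Fact ℓ'.Prime], p ≠ ℓ' → ∀ γ : GK K₀, IsFrob v₀ γ →
      ∀ τ : algebraicClosure ℚ (PadicAlgCl ℓ') →+* PadicAlgCl p,
        NewtonTau (V ℓ' γ⁻¹ : Matrix (Fin r) (Fin r) ℚ_[ℓ']) τ H

theorem ordinary_of {K₀ : Type} [Field K₀] [NumberField K₀] (T : Finset ℕ) {r : ℕ}
    (V : ∀ (ℓ' : ℕ) [Fact ℓ'.Prime], GK K₀ →* Matrix.GeneralLinearGroup (Fin r) ℚ_[ℓ'])
    (F : HeightOneSpectrum (𝓞 K₀) → Polynomial ℤ) (H : Multiset ℕ) (hV : StrictlyCompatible T V F)
    (v₀ : HeightOneSpectrum (𝓞 K₀)) (hv : MultSystem.IsDeg1 T v₀)
    (hN : NewtonSlopes (Ideal.absNorm v₀.asIdeal) (F v₀) H) : Ordinary V H v₀ := by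
  have hN' := hN
  obtain ⟨hp, -⟩ := hN
  refine ⟨Ideal.absNorm v₀.asIdeal, hp, rfl, ?_⟩
  intro ℓ' _ hne γ hγ τ
  exact newtonTau_of _ τ _ (F v₀) (hV ℓ' v₀ hv hne γ hγ) hN'

theorem result (K₀ : Type) [Field K₀] [NumberField K₀]
    -- the fields of definition and the generators
    (K : ℕ → Type) [∀ n, Field (K n)] [∀ n, NumberField (K n)] [∀ n, Algebra K₀ (K n)]
    (ℓ : ℕ → ℕ) [∀ n, Fact (ℓ n).Prime] (ι : ℕ → Type) [∀ n, Fintype (ι n)]
    (A : ∀ n, ι n → MotSystem (K n) (ℓ n)) (χ : ∀ n, GK (K n) →* (PadicAlgCl (ℓ n))ˣ)
    (S : ∀ n, ι n → Finset ℕ) (hA : ∀ n i, (A n i).IsMotive (χ n) (S n i))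
    -- the orbit condition
    (hγ : ∀ n, ∃ γ : GK (K n), ∀ i, (A n i).Admissible γ)
    (c : ℝ) (hc : ∀ n, c ≤ MotSystem.admProportion (A n) / (Module.finrank K₀ (K n) : ℝ)) :
    ∃ P : Set (HeightOneSpectrum (𝓞 K₀)), P.Infinite ∧ c ≤ lowerDensity (fun v₀ => v₀ ∈ P) ∧
      -- all projective varieties, with the intersection cohomology groups `V i`
      ∀ (T : Finset ℕ) (ν : Type) [Finite ν] (r : ν → ℕ)
        (V : ∀ (i : ν) (ℓ' : ℕ) [Fact ℓ'.Prime], GK K₀ →* Matrix.GeneralLinearGroup (Fin (r i)) ℚ_[ℓ'])
        (F : ν → HeightOneSpectrum (𝓞 K₀) → ℤ[X]) (H : ν → Multiset ℕ),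
        (∀ i, StrictlyCompatible T (V i) (F i)) →
        -- positive lower density
        (∀ n, (∀ i, InClosure (A n) T (F i) (H i)) →
          0 < lowerDensity (fun v₀ : HeightOneSpectrum (𝓞 K₀) => ∀ i, Ordinary (V i) (H i) v₀) ∧
          MotSystem.admProportion (A n) / (Module.finrank K₀ (K n) : ℝ) ≤
            lowerDensity (fun v₀ : HeightOneSpectrum (𝓞 K₀) => ∀ i, Ordinary (V i) (H i) v₀)) ∧
        -- the common set of places
        ((∀ i, ∀ᶠ n in atTop, InClosure (A n) T (F i) (H i)) →
          {v₀ ∈ P | ¬ ∀ i, Ordinary (V i) (H i) v₀}.Finite) := by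
  have hd : ∀ n, (0 : ℝ) < (Module.finrank K₀ (K n) : ℝ) := fun n => by
    have : FiniteDimensional K₀ (K n) := Module.Finite.of_restrictScalars_finite ℚ K₀ (K n)
    exact_mod_cast Module.finrank_pos
  have hpos : ∀ n, 0 < MotSystem.admProportion (A n) / (Module.finrank K₀ (K n) : ℝ) :=
    fun n => div_pos (MotSystem.admProportion_pos (A n) (hγ n)) (hd n)
  have hlow := fun n => lower_below (K₀ := K₀) (A n) (χ n) (S n) (hA n)
  obtain ⟨P, hinf, hdens, hfin⟩ := diagonal (fun n => Below K₀ (A n) (S n))
    (fun n => lt_of_lt_of_le (hpos n) (hlow n)) c (fun n => (hc n).trans (hlow n))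
  -- a good place is ordinary
  have hord : ∀ (T : Finset ℕ) (r : ℕ)
      (V : ∀ (ℓ' : ℕ) [Fact ℓ'.Prime], GK K₀ →* Matrix.GeneralLinearGroup (Fin r) ℚ_[ℓ'])
      (F : HeightOneSpectrum (𝓞 K₀) → ℤ[X]) (H : Multiset ℕ), StrictlyCompatible T V F →
      ∀ n, InClosure (A n) T F H → ∀ v₀, Below K₀ (A n) (S n) v₀ → Ideal.absNorm v₀.asIdeal ∉ T →
        Ordinary V H v₀ := by
    rintro T r V F H hV n hF v₀ ⟨v, h0, hg⟩ hT
    have e := under_norm v hg.1 v₀ h0
    refine ordinary_of T V F H hV v₀ ⟨e ▸ hg.1, hT⟩ ?_
    exact newton_of_closure (A n) (χ n) (S n) (hA n) hF v₀ v h0 hg (e ▸ hT)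
  refine ⟨P, hinf, hdens, fun T ν _ r V F H hV => ⟨fun n hF => ?_, fun hF => ?_⟩⟩
  · have key : MotSystem.admProportion (A n) / (Module.finrank K₀ (K n) : ℝ) ≤
        lowerDensity (fun v₀ : HeightOneSpectrum (𝓞 K₀) => ∀ i, Ordinary (V i) (H i) v₀) := by
      refine (hlow n).trans (lowerDensity_le_of_finite _ _ T ?_)
      intro v₀ hv₀ hT i
      exact hord T (r i) (V i) (F i) (H i) (hV i) n (hF i) v₀ hv₀ hT
    exact ⟨lt_of_lt_of_le (hpos n) key, key⟩
  · obtain ⟨n₀, hn₀⟩ := eventually_atTop.mp (eventually_all.mpr hF)
    refine ((hfin n₀).union (finite_norm_mem (K := K₀) T)).subset ?_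
    rintro v₀ ⟨hv, hno⟩
    by_contra hcon
    rw [Set.mem_union, not_or] at hcon
    obtain ⟨h1, h2⟩ := hcon
    have h2' : Ideal.absNorm v₀.asIdeal ∉ T := h2
    obtain ⟨n, hn, hb⟩ : ∃ n, n₀ ≤ n ∧ Below K₀ (A n) (S n) v₀ := by
      by_contra h3
      push Not at h3
      exact h1 ⟨hv, h3⟩
    exact hno fun i => hord T (r i) (V i) (F i) (H i) (hV i) n (hn₀ n hn i) v₀ hb h2'

end Pool.Agent.Results.MP_db07cb_ag.SaturatedClosureH31
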