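import Pool.Agent.V7H32.UO.Main

/-!
# One infinite set of prime numbers is ordinary for all varieties, if each variety has one
# ordinary prime number

`newton X n v` and `hodge X n` are the slopes of the Newton polygon at the place `v` and of the Hodge
polygon of the intersection cohomology `IH^n(X)` of a projective variety `X` (geometrically integral,
possibly singular) over a number field `K`; the place `v` is ordinary for `IH^n(X)` if they agree.

Theorem. The following are equivalent.

1. (Q1) For all projective varieties `X` over all number fields and all `n` infinitely many places are
   ordinary for `IH^n(X)`.
2. For all geometrically integral hypersurfaces `X` of even dimension `d` in projective space over
   the field of rational numbers infinitely many prime numbers are ordinary for `IH^d(X)`.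
3. For every smooth projective variety `X` of even dimension `d` over the field of rational numbers there
   is at least one prime number at which `X` has good reduction and `H^d(X)` is ordinary.
4. There is one infinite set `S` of prime numbers such that for every number field `K`, every
   projective variety `X` over `K` and every `n`, all places of `K` above `p` are ordinary for `IH^n(X)`,
   for all but finitely many `p` in `S`.

Moreover for every set `S` as in 4 and every CM field `L` all but finitely many elements of `S` split
completely in `L`; for example almost all elements of `S` are congruent to one modulo `N`, for every
`N`. So if the conjecture is true, then it remains true if one considers only places above prime
numbers which split completely in a given CM field, and it is true for finitely many varieties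
over different fields at the same prime numbers.

Idea of the proof. The second moment of the slopes of the Newton polygon is at most the one of the
Hodge polygon, with equality only if the polygons agree. The difference is additive for direct sums
and a derivation for tensor products. So the tensor product of nonzero `H^i(X)` and `H^j(Y)` is
ordinary only if both factors are, and a direct summand of an ordinary object is ordinary. One
variety is a finite family: take products, Weil restrictions and resolutions of singularities, and
multiply by projective lines (degree zero or two) to arrive at the middle degree. To avoid a given finite
set of prime numbers one multiplies by an elliptic curve with multiplicative reduction at these
prime numbers: the product has bad reduction there. A diagonal choice of prime numbers for the countably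
many varieties gives `S`. For 2 one uses a generic projection of a smooth variety to a hypersurface,
whose normalisation it is.
-/

set_option autoImplicit false

namespace Pool.Agent.Results.MP_db07cb_ag.UniversalOrdinaryH32

open Pool.Agent.V7H32.UO NumberField

/-- **The universal set of ordinary prime numbers.** -/
theorem result (T : Slopes) (hT : T.Known) :
    (T.OrdinaryConjecture ↔ T.HypersurfaceConjecture) ∧
    (T.OrdinaryConjecture ↔ T.OnePrime) ∧
    (T.OrdinaryConjecture ↔ ∃ S, T.IsUniversal S) ∧
    ∀ S, T.IsUniversal S → ∀ L : NF, IsCMField L.F →
      {p ∈ S | ¬ SplitsCompletely p L}.Finite :=
  Slopes.main hT

end Pool.Agent.Results.MP_db07cb_ag.UniversalOrdinaryH32
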